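import Pool.Agent.Run7.h696.CP.Iface

/-! # Piece DER of the project CP (helper696): derivatives of polynomials in the solutions -/

set_option autoImplicit false
set_option linter.unusedVariables false
set_option linter.unusedSimpArgs false

open PowerSeries Matrix
open Pool.Agent.Y113 hiding Bm
open Pool.Agent.Y120.GF Pool.Agent.Y120.GH Pool.Agent.Y119.HZ
open Pool.Agent.Y119.HY (cm E Hf Yf Vr HD E_HD)
open Pool.Agent.Run7.h225.HG Pool.Agent.Run7.h225.HG.SYS2 Pool.Agent.Run7.h696.CF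
open Pool.Agent.Run7.h696.CP
open Filter Topology

namespace Pool.Agent.Run7.h56.CP

/-- convergence in the disc of radius `ρ` -/
def RG (ρ : ℝ) (c : ℕ → ℂ) : Prop := ∀ r : ℝ, 0 ≤ r → r < ρ → Summable fun k => ‖c k‖ * r ^ k

theorem RG.diff {ρ : ℝ} {c : ℕ → ℂ} (hc : RG ρ c) :
    DifferentiableOn ℂ (Pool.Agent.Y119.HY.ps c) (Metric.ball 0 ρ) := by
  intro z hz
  rw [Metric.mem_ball, dist_zero_right] at hz
  obtain ⟨r, hr1, hr2⟩ := exists_between hz
  have hr0 : 0 ≤ r := (norm_nonneg _).trans hr1.le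
  have h1 : DifferentiableOn ℂ (fun w : ℂ => ∑' k, c k * w ^ k) (Metric.ball 0 r) := by
    refine Complex.differentiableOn_tsum_of_summable_norm (hc r hr0 hr2) (fun m => ?_) Metric.isOpen_ball
      fun m u hu => ?_
    · exact ((differentiable_const _).mul (differentiable_id.pow m)).differentiableOn
    · rw [norm_mul, norm_pow]
      refine mul_le_mul_of_nonneg_left (pow_le_pow_left₀ (norm_nonneg _) ?_ _) (norm_nonneg _)
      rw [Metric.mem_ball, dist_zero_right] at hu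
      exact hu.le
  exact (h1.differentiableAt (Metric.isOpen_ball.mem_nhds
    (by rwa [Metric.mem_ball, dist_zero_right]))).differentiableWithinAt

theorem RG.hasDeriv {ρ : ℝ} {c : ℕ → ℂ} (hc : RG ρ c) {z : ℂ} (hz : ‖z‖ < ρ) :
    HasDerivAt (Pool.Agent.Y119.HY.ps c) (deriv (Pool.Agent.Y119.HY.ps c) z) z :=
  (hc.diff.differentiableAt (Metric.isOpen_ball.mem_nhds
    (by rwa [Metric.mem_ball, dist_zero_right]))).hasDerivAt

theorem RG.deriv {ρ : ℝ} {c : ℕ → ℂ} (hc : RG ρ c) {z : ℂ} (hz : ‖z‖ < ρ) :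
    z * _root_.deriv (Pool.Agent.Y119.HY.ps c) z =
      Pool.Agent.Y119.HY.ps (fun k => (k : ℂ) * c k) z := by
  obtain ⟨r, hr1, hr2⟩ := exists_between hz
  have hr0 : 0 ≤ r := (norm_nonneg _).trans hr1.le
  have h1 : HasSum (fun m : ℕ => _root_.deriv (fun w : ℂ => c m * w ^ m) z)
      (_root_.deriv (fun w : ℂ => ∑' m, c m * w ^ m) z) := by
    refine Complex.hasSum_deriv_of_summable_norm (hc r hr0 hr2) (U := Metric.ball 0 r) (fun m => ?_)
      Metric.isOpen_ball (fun m w hw => ?_) (by rwa [Metric.mem_ball, dist_zero_right])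
    · exact ((differentiable_const _).mul (differentiable_id.pow m)).differentiableOn
    · rw [norm_mul, norm_pow]
      refine mul_le_mul_of_nonneg_left (pow_le_pow_left₀ (norm_nonneg _) ?_ _) (norm_nonneg _)
      rw [Metric.mem_ball, dist_zero_right] at hw
      exact hw.le
  have h2 := (h1.mul_left z).tsum_eq
  show z * _root_.deriv (fun w : ℂ => ∑' m, c m * w ^ m) z = _
  rw [← h2]
  unfold Pool.Agent.Y119.HY.ps
  refine tsum_congr fun m => ?_
  rw [deriv_const_mul _ (differentiableAt_id.pow m)]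
  have := (hasDerivAt_pow m z).deriv
  rw [this]
  rcases Nat.eq_zero_or_pos m with h0 | hpos
  · subst h0; simp
  · obtain ⟨m', rfl⟩ := Nat.exists_eq_succ_of_ne_zero hpos.ne'
    rw [Nat.succ_sub_one, pow_succ]
    ring

theorem rg_of_cv {L : ℝ} (hL : 0 < L) {f : ℚ⟦X⟧} (hf : ∀ t : ℝ, L < t → Cv t f) :
    RG (1 / L) fun k => ((coeff k f : ℚ) : ℂ) := by
  intro r hr0 hr
  rcases hr0.eq_or_lt with h0 | h0
  · rw [← h0]
    refine summable_of_ne_finset_zero (s := {0}) fun k hk => ?_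
    rw [Finset.mem_singleton] at hk
    rw [zero_pow hk, mul_zero]
  · have ht : L < 1 / r := by
      rw [lt_div_iff₀ hL] at hr
      rw [lt_div_iff₀ h0]
      linarith
    refine (hf _ ht).congr fun k => ?_
    rw [one_div_one_div, Complex.norm_ratCast]

theorem cv_deriv {L : ℝ} (hL : 0 < L) {f : ℚ⟦X⟧} (hf : ∀ t : ℝ, L < t → Cv t f) {t : ℝ} (ht : L < t) :
    Cv t (X * d⁄dX ℚ f) := by
  obtain ⟨s, hs1, hs2⟩ := exists_between ht
  have ht0 : 0 < t := by linarith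
  have hs0 : 0 < s := by linarith
  have hlim : Tendsto (fun n : ℕ => (n : ℝ) * (s / t) ^ n) atTop (nhds 0) :=
    tendsto_self_mul_const_pow_of_lt_one (by positivity) (by rw [div_lt_one ht0]; exact hs2)
  obtain ⟨B, hB⟩ := hlim.bddAbove_range
  unfold Cv
  refine Summable.of_nonneg_of_le (fun m => by positivity) (fun m => ?_) ((hf s hs1).mul_left B)
  rw [coeff_X_deriv]
  have h1 : (m : ℝ) * (s / t) ^ m ≤ B := hB ⟨m, rfl⟩
  have h2 : (1 / t) ^ m = (s / t) ^ m * (1 / s) ^ m := by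
    rw [← mul_pow]
    congr 1
    field_simp
  push_cast
  rw [abs_mul, h2, Nat.abs_cast]
  calc (m : ℝ) * |((coeff m f : ℚ) : ℝ)| * ((s / t) ^ m * (1 / s) ^ m) =
        ((m : ℝ) * (s / t) ^ m) * (|((coeff m f : ℚ) : ℝ)| * (1 / s) ^ m) := by ring
    _ ≤ B * (|((coeff m f : ℚ) : ℝ)| * (1 / s) ^ m) :=
        mul_le_mul_of_nonneg_right h1 (by positivity)

theorem ev_pol (q : Polynomial ℚ) (x : ℝ) : ((ev (1 / x) (q : ℚ⟦X⟧) : ℝ) : ℂ) = evq (x : ℂ) q := by
  rw [ev_coe, one_div_one_div]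
  unfold evq
  show _ = Polynomial.aeval (algebraMap ℝ ℂ x) q
  rw [Polynomial.aeval_algebraMap_apply]
  rfl

variable {n : ℕ} {N : Matrix (Fin n) (Fin n) ℚ} {H W : Matrix (Fin n) (Fin n) ℚ⟦X⟧}

/-- integral polynomials over the rational numbers -/
noncomputable abbrev qq (P : Polynomial ℤ) : Polynomial ℚ := P.map (Int.castRingHom ℚ)

theorem hf_rg {L : ℝ} (hL : 0 < L) (h : SysL L n N H W) (i j : Fin n) :
    RG (1 / L) fun k => Hcg H k i j := rg_of_cv hL fun t ht => h.cv t ht i j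

theorem hf_deriv {L : ℝ} (hL : 0 < L) (h : SysL L n N H W) {x : ℝ} (hx : 0 < x) (hx1 : x < 1 / L)
    (i j : Fin n) : HasDerivAt (fun z => Hf (Hcg H) z i j)
      (deriv (fun z => Hf (Hcg H) z i j) (x : ℂ)) (x : ℂ) ∧
      (x : ℂ) * deriv (fun z => Hf (Hcg H) z i j) (x : ℂ) =
        ((ev (1 / x) (X * d⁄dX ℚ (H i j)) : ℝ) : ℂ) := by
  have hrg := hf_rg hL h i j
  have hn : ‖(x : ℂ)‖ < 1 / L := by
    rw [Complex.norm_real, Real.norm_of_nonneg hx.le]
    exact hx1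
  refine ⟨hrg.hasDeriv hn, (hrg.deriv hn).trans ?_⟩
  unfold Pool.Agent.Y119.HY.ps ev
  rw [Complex.ofReal_tsum]
  refine tsum_congr fun m => ?_
  rw [coeff_X_deriv, one_div_one_div]
  have h3 : Hcg H m i j = ((coeff m (H i j) : ℚ) : ℂ) := rfl
  show (m : ℂ) * Hcg H m i j * (x : ℂ) ^ m = _
  rw [h3]
  push_cast
  ring

theorem ode_at {L : ℝ} (hL : 0 < L) (h : SysL L n N H W) {T₀ : Polynomial ℤ}
    {A : Fin n → Fin n → Polynomial ℤ}
    (hode : ∀ i j, ps T₀ * (X * d⁄dX ℚ (H i j) + ∑ k, H i k * C (N k j)) = ∑ k, ps (A i k) * H k j)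
    {x : ℝ} (hx : 0 < x) (hx1 : x < 1 / L) (i j : Fin n) :
    evq (x : ℂ) (qq T₀) * ((x : ℂ) * deriv (fun z => Hf (Hcg H) z i j) (x : ℂ) +
      ∑ k, Hf (Hcg H) (x : ℂ) i k * cm N k j) =
      ∑ k, evq (x : ℂ) (qq (A i k)) * Hf (Hcg H) (x : ℂ) k j := by
  have ht : L < 1 / x := by
    rw [lt_div_iff₀ hL] at hx1
    rw [lt_div_iff₀ hx]
    linarith
  have ht0 : 0 < 1 / x := by positivity
  have c1 : Cv (1 / x) (X * d⁄dX ℚ (H i j)) := cv_deriv hL (fun t ht => h.cv t ht i j) ht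
  have c2 : ∀ k ∈ Finset.univ, Cv (1 / x) (H i k * C (N k j)) := fun k _ =>
    Cv.mul ht0 (h.cv _ ht i k) (Cv.C _)
  have c3 : ∀ k ∈ Finset.univ, Cv (1 / x) (ps (A i k) * H k j) := fun k _ =>
    Cv.mul ht0 (Cv.coe _) (h.cv _ ht k j)
  have h1 : ((ev (1 / x) (ps T₀ * (X * d⁄dX ℚ (H i j) + ∑ k, H i k * C (N k j))) : ℝ) : ℂ) =
      ((ev (1 / x) (∑ k, ps (A i k) * H k j) : ℝ) : ℂ) := by rw [hode i j]
  rw [Cv.ev_mul ht0 (show Cv (1 / x) (ps T₀) from Cv.coe _) (Cv.add ht0 c1 (Cv.sum ht0 _ _ c2)),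
    Cv.ev_add ht0 c1 (Cv.sum ht0 _ _ c2), Cv.ev_sum ht0 _ _ c2, Cv.ev_sum ht0 _ _ c3] at h1
  push_cast at h1
  rw [← (hf_deriv hL h hx hx1 i j).2] at h1
  have e1 : ((ev (1 / x) (ps T₀) : ℝ) : ℂ) = evq (x : ℂ) (qq T₀) := ev_pol _ _
  have e2 : ∀ k, ((ev (1 / x) (H i k * C (N k j)) : ℝ) : ℂ) = Hf (Hcg H) (x : ℂ) i k * cm N k j := by
    intro k
    rw [Cv.ev_mul ht0 (h.cv _ ht i k) (Cv.C _), ev_C]
    push_cast
    rw [ev_H, one_div_one_div]
    rfl
  have e3 : ∀ k, ((ev (1 / x) (ps (A i k) * H k j) : ℝ) : ℂ) =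
      evq (x : ℂ) (qq (A i k)) * Hf (Hcg H) (x : ℂ) k j := by
    intro k
    rw [Cv.ev_mul ht0 (show Cv (1 / x) (ps (A i k)) from Cv.coe _) (h.cv _ ht k j)]
    push_cast
    rw [ev_H, one_div_one_div]
    congr 1
    exact ev_pol _ _
  simp only [e1, e2, e3] at h1
  exact h1

/-- the conjugated solution -/
noncomputable def Zc (N : Matrix (Fin n) (Fin n) ℚ) (H : Matrix (Fin n) (Fin n) ℚ⟦X⟧)
    (g : Matrix (Fin n) (Fin n) ℂ) (z : ℂ) : Matrix (Fin n) (Fin n) ℂ :=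
  Yf (cm N) (Hcg H) z * g * E (cm N) (-Complex.log z)

theorem Zc_HD (hN : cm N ^ n = 0) (g : Matrix (Fin n) (Fin n) ℂ) {z : ℂ} (hz : z ∈ Complex.slitPlane)
    {D : Matrix (Fin n) (Fin n) ℂ} (hD : HD (Hf (Hcg H)) D z) :
    HD (Zc N H g) (((D * E (cm N) (Complex.log z) + Hf (Hcg H) z *
      (z⁻¹ • (cm N * E (cm N) (Complex.log z)))) * g +
      (Hf (Hcg H) z * E (cm N) (Complex.log z)) * 0) * E (cm N) (-Complex.log z) +
      (Hf (Hcg H) z * E (cm N) (Complex.log z) * g) *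
        ((-z⁻¹) • (cm N * E (cm N) (-Complex.log z)))) z := by
  have h2 : HD (fun w => E (cm N) (Complex.log w)) (z⁻¹ • (cm N * E (cm N) (Complex.log z))) z :=
    (E_HD hN (Complex.log z)).comp (Complex.hasDerivAt_log hz)
  have h3 : HD (fun w => E (cm N) (-Complex.log w)) ((-z⁻¹) • (cm N * E (cm N) (-Complex.log z))) z :=
    HD.comp (f := fun w => -Complex.log w) (E_HD hN (-Complex.log z)) (Complex.hasDerivAt_log hz).neg
  exact (((hD.mul h2).mul (HD.const g z)).mul h3)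

theorem Zc_ode (hN : cm N ^ n = 0) (g : Matrix (Fin n) (Fin n) ℂ) {z t₀ : ℂ} (hz : z ≠ 0)
    {D AA : Matrix (Fin n) (Fin n) ℂ}
    (h : (z * t₀) • D = AA * Hf (Hcg H) z - t₀ • (Hf (Hcg H) z * cm N)) :
    (z * t₀) • (((D * E (cm N) (Complex.log z) + Hf (Hcg H) z *
      (z⁻¹ • (cm N * E (cm N) (Complex.log z)))) * g +
      (Hf (Hcg H) z * E (cm N) (Complex.log z)) * 0) * E (cm N) (-Complex.log z) +
      (Hf (Hcg H) z * E (cm N) (Complex.log z) * g) *
        ((-z⁻¹) • (cm N * E (cm N) (-Complex.log z)))) =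
      AA * Zc N H g z - t₀ • (Zc N H g z * cm N) := by
  have e : z * t₀ * z⁻¹ = t₀ := by field_simp
  have hc := E_comm (cm N) (-Complex.log z)
  rw [hc]
  set Hz := Hf (Hcg H) z
  set Ez := E (cm N) (Complex.log z)
  set Em := E (cm N) (-Complex.log z)
  have e1 : (z * t₀) • (((D * Ez + Hz * (z⁻¹ • (cm N * Ez))) * g + (Hz * Ez) * 0) * Em +
      (Hz * Ez * g) * ((-z⁻¹) • (Em * cm N))) = ((z * t₀) • D) * Ez * g * Em +
        t₀ • (Hz * cm N * Ez * g * Em) - t₀ • (Hz * Ez * g * Em * cm N) := by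
    simp only [Matrix.mul_zero, add_zero, Matrix.add_mul, smul_add, Matrix.mul_smul, Matrix.smul_mul,
      smul_smul, mul_neg, smul_neg, neg_smul, Matrix.mul_neg, e, Matrix.mul_assoc]
    rw [sub_eq_add_neg]
  rw [e1, h]
  unfold Zc Yf
  simp only [Matrix.sub_mul, Matrix.smul_mul, Matrix.mul_assoc]
  abel

theorem diff_U {L : ℝ} (hL : 0 < L) (h : SysL L n N H W) (hN : cm N ^ n = 0)
    (g : Matrix (Fin n) (Fin n) ℂ) (i j : Fin n) :
    DifferentiableOn ℂ (fun z => Zc N H g z i j) (Complex.slitPlane ∩ Metric.ball 0 (1 / L)) := by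
  intro z hz
  have hz2 : ‖z‖ < 1 / L := by simpa using hz.2
  have hD : HD (Hf (Hcg H)) (Matrix.of fun i j => deriv (fun z => Hf (Hcg H) z i j) z) z := by
    intro i j
    exact (hf_rg hL h i j).hasDeriv hz2
  exact (Zc_HD hN g hz.1 hD i j).differentiableAt.differentiableWithinAt

theorem Z_an {L : ℝ} (hL : 0 < L) (h : SysL L n N H W) (hN : cm N ^ n = 0)
    (g : Matrix (Fin n) (Fin n) ℂ) (i j : Fin n) {x : ℝ} (hx : 0 < x) (hx1 : x < 1 / L) :
    AnalyticAt ℂ (fun z => Zc N H g z i j) (x : ℂ) := by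
  have hop : IsOpen (Complex.slitPlane ∩ Metric.ball (0 : ℂ) (1 / L)) :=
    Complex.isOpen_slitPlane.inter Metric.isOpen_ball
  refine (diff_U hL h hN g i j).analyticAt (hop.mem_nhds ⟨?_, ?_⟩)
  · exact Complex.ofReal_mem_slitPlane.2 hx
  · rw [Metric.mem_ball, dist_zero_right, Complex.norm_real, Real.norm_of_nonneg hx.le]
    exact hx1

theorem an_real {f : ℂ → ℂ} {x : ℝ} (hf : AnalyticAt ℂ f (x : ℂ)) :
    AnalyticAt ℝ (fun y : ℝ => f (y : ℂ)) x := by
  have h1 : AnalyticAt ℝ f (x : ℂ) := hf.restrictScalars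
  exact AnalyticAt.fun_comp (g := f) (f := fun y : ℝ => (y : ℂ)) h1 (Complex.ofRealCLM.analyticAt x)

theorem Z_der {L : ℝ} (hL : 0 < L) (h : SysL L n N H W) (hN : cm N ^ n = 0) {T₀ : Polynomial ℤ}
    {A : Fin n → Fin n → Polynomial ℤ}
    (hode : ∀ i j, ps T₀ * (X * d⁄dX ℚ (H i j) + ∑ k, H i k * C (N k j)) = ∑ k, ps (A i k) * H k j)
    (g : Matrix (Fin n) (Fin n) ℂ) (i j : Fin n) {x : ℝ} (hx : 0 < x) (hx1 : x < 1 / L) :
    ((x : ℂ) * evq (x : ℂ) (qq T₀)) * deriv (fun y : ℝ => Zc N H g (y : ℂ) i j) x =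
      ∑ k, evq (x : ℂ) (qq (A i k)) * Zc N H g (x : ℂ) k j -
        ∑ k, evq (x : ℂ) (qq T₀) * cm N k j * Zc N H g (x : ℂ) i k := by
  have hx0 : (x : ℂ) ≠ 0 := by exact_mod_cast hx.ne'
  set D : Matrix (Fin n) (Fin n) ℂ :=
    Matrix.of fun i j => deriv (fun z => Hf (Hcg H) z i j) (x : ℂ) with hDdef
  have hD : HD (Hf (Hcg H)) D (x : ℂ) := fun i j => (hf_deriv hL h hx hx1 i j).1
  set AA : Matrix (Fin n) (Fin n) ℂ := Matrix.of fun i k => evq (x : ℂ) (qq (A i k)) with hAA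
  set t₀ := evq (x : ℂ) (qq T₀) with ht₀
  have hE : ((x : ℂ) * t₀) • D = AA * Hf (Hcg H) (x : ℂ) - t₀ • (Hf (Hcg H) (x : ℂ) * cm N) := by
    ext a b
    have h1 := ode_at hL h hode hx hx1 a b
    simp only [Matrix.smul_apply, Matrix.sub_apply, Matrix.mul_apply, smul_eq_mul, hAA, hDdef,
      Matrix.of_apply]
    linear_combination h1
  have h2 := Zc_ode (H := H) hN g hx0 hE
  have hz : (x : ℂ) ∈ Complex.slitPlane := Complex.ofReal_mem_slitPlane.2 hx
  have h3 := Zc_HD hN g hz hD i j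
  rw [h3.comp_ofReal.deriv]
  have h4 := congrFun (congrFun h2 i) j
  simp only [Matrix.smul_apply, Matrix.sub_apply, smul_eq_mul] at h4
  rw [h4]
  simp only [Matrix.mul_apply, hAA, Matrix.of_apply, Finset.mul_sum]
  congr 1
  exact Finset.sum_congr rfl fun k _ => by ring

/-- the derivative of a variable -/
noncomputable def ww (N : Matrix (Fin n) (Fin n) ℚ) (T₀ : Polynomial ℤ) (A : Fin n → Fin n → Polynomial ℤ)
    (a : Fin (n * n)) : MvPolynomial (Fin (n * n)) (Polynomial ℚ) :=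
  ∑ k, MvPolynomial.C (qq (A (ix n a).1 k)) * MvPolynomial.X ((ix n).symm (k, (ix n a).2)) -
    ∑ k, MvPolynomial.C (qq T₀ * Polynomial.C (N k (ix n a).2)) *
      MvPolynomial.X ((ix n).symm ((ix n a).1, k))

theorem evq_X (z : ℂ) : evq z Polynomial.X = z := by
  unfold evq
  exact Polynomial.aeval_X z

theorem evq_C (z : ℂ) (c : ℚ) : evq z (Polynomial.C c) = (c : ℂ) := by
  unfold evq
  exact Polynomial.aeval_C z c

theorem vP_ww (T₀ : Polynomial ℤ) (A : Fin n → Fin n → Polynomial ℤ) (a : Fin (n * n))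
    (g : Matrix (Fin n) (Fin n) ℂ) (x : ℝ) : vP N H (ww N T₀ A a) g x =
      ∑ k, evq (x : ℂ) (qq (A (ix n a).1 k)) * Zc N H g (x : ℂ) k (ix n a).2 -
        ∑ k, evq (x : ℂ) (qq T₀) * cm N k (ix n a).2 * Zc N H g (x : ℂ) (ix n a).1 k := by
  unfold vP ww
  rw [MvPolynomial.eval₂_sub, MvPolynomial.eval₂_sum, MvPolynomial.eval₂_sum]
  congr 1
  · refine Finset.sum_congr rfl fun k _ => ?_
    rw [MvPolynomial.eval₂_mul, MvPolynomial.eval₂_C, MvPolynomial.eval₂_X, Equiv.apply_symm_apply]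
    rfl
  · refine Finset.sum_congr rfl fun k _ => ?_
    rw [MvPolynomial.eval₂_mul, MvPolynomial.eval₂_C, MvPolynomial.eval₂_X, Equiv.apply_symm_apply,
      map_mul, evq_C]
    rfl

theorem aeval_C' (q : Polynomial ℚ) :
    MvPolynomial.aeval (hfg H) (MvPolynomial.C q) = (q : ℚ⟦X⟧) := by
  rw [MvPolynomial.aeval_C, PowerSeries.algebraMap_apply']
  simp

theorem aeval_ww (T₀ : Polynomial ℤ) (A : Fin n → Fin n → Polynomial ℤ)
    (hode : ∀ i j, ps T₀ * (X * d⁄dX ℚ (H i j) + ∑ k, H i k * C (N k j)) = ∑ k, ps (A i k) * H k j)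
    (a : Fin (n * n)) : ((Polynomial.X * qq T₀ : Polynomial ℚ) : ℚ⟦X⟧) * d⁄dX ℚ (hfg H a) =
      MvPolynomial.aeval (hfg H) (ww N T₀ A a) := by
  unfold ww
  rw [map_sub, map_sum, map_sum]
  have e1 : ∀ k, MvPolynomial.aeval (hfg H) (MvPolynomial.C (qq (A (ix n a).1 k)) *
      MvPolynomial.X ((ix n).symm (k, (ix n a).2))) = ps (A (ix n a).1 k) * H k (ix n a).2 := by
    intro k
    rw [map_mul, aeval_C', MvPolynomial.aeval_X]
    unfold hfg
    rw [Equiv.apply_symm_apply]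
    rfl
  have e2 : ∀ k, MvPolynomial.aeval (hfg H) (MvPolynomial.C (qq T₀ * Polynomial.C (N k (ix n a).2)) *
      MvPolynomial.X ((ix n).symm ((ix n a).1, k))) =
        ps T₀ * (H (ix n a).1 k * C (N k (ix n a).2)) := by
    intro k
    rw [map_mul, aeval_C', MvPolynomial.aeval_X]
    unfold hfg
    rw [Equiv.apply_symm_apply, Polynomial.coe_mul, Polynomial.coe_C]
    show ps T₀ * _ * _ = _
    ring
  simp only [e1, e2]
  rw [← hode, ← Finset.mul_sum, Polynomial.coe_mul, Polynomial.coe_X]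
  show X * ps T₀ * _ = _
  unfold hfg
  ring

theorem p_DER : S_DER := by
  intro L n N H W hL h
  have hN : cm N ^ n = 0 := by
    rw [← Pool.Agent.Y119.HY.cm_pow, h.nil, Pool.Agent.Y119.HY.cm_zero]
  obtain ⟨T₀, A, hT₀, hode⟩ := h.ode
  have hTq : qq T₀ ≠ 0 := by
    intro h0
    exact hT₀ (Polynomial.map_injective _ (RingHom.injective_int _) (h0.trans (Polynomial.map_zero _).symm))
  refine ⟨Polynomial.X * qq T₀, mul_ne_zero Polynomial.X_ne_zero hTq, fun P => ?_⟩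
  have hev : ∀ x : ℝ, evq (x : ℂ) (Polynomial.X * qq T₀) = (x : ℂ) * evq (x : ℂ) (qq T₀) := by
    intro x
    rw [map_mul, evq_X]
  induction P using MvPolynomial.induction_on with
  | C q =>
    refine ⟨MvPolynomial.C (Polynomial.X * qq T₀ * Polynomial.derivative q), ?_, fun g => ?_⟩
    · rw [aeval_C', aeval_C', PowerSeries.derivative_coe, Polynomial.coe_mul (_ * _)]
    · have e : ∀ q : Polynomial ℚ, vP N H (MvPolynomial.C q) g = fun x : ℝ => Polynomial.aeval (x : ℂ) q := by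
        intro q
        funext x
        unfold vP
        rw [MvPolynomial.eval₂_C]
        rfl
      rw [e, e]
      refine ⟨fun x _ => an_real (f := fun z => Polynomial.aeval z q)
        (analyticAt_id.aeval_polynomial q), fun x hx hx1 => ?_⟩
      have h1 : HasDerivAt (fun z : ℂ => Polynomial.aeval z q)
          (Polynomial.aeval (x : ℂ) (Polynomial.derivative q)) (x : ℂ) := q.hasDerivAt_aeval (x : ℂ)
      rw [h1.comp_ofReal.deriv]
      simp only [map_mul]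
      rfl
  | add P Q hP hQ =>
    obtain ⟨P', hP1, hP2⟩ := hP
    obtain ⟨Q', hQ1, hQ2⟩ := hQ
    refine ⟨P' + Q', ?_, fun g => ?_⟩
    · rw [map_add, map_add, map_add, mul_add, hP1, hQ1]
    · have e : ∀ P Q : MvPolynomial (Fin (n * n)) (Polynomial ℚ), vP N H (P + Q) g =
          fun x => vP N H P g x + vP N H Q g x := by
        intro P Q
        funext x
        unfold vP
        rw [MvPolynomial.eval₂_add]
      rw [e, e]
      refine ⟨fun x hx => ((hP2 g).1 x hx).add ((hQ2 g).1 x hx), fun x hx hx1 => ?_⟩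
      have d1 := ((hP2 g).1 x ⟨hx, hx1⟩).differentiableAt
      have d2 := ((hQ2 g).1 x ⟨hx, hx1⟩).differentiableAt
      have h1 : deriv (fun x => vP N H P g x + vP N H Q g x) x =
          deriv (vP N H P g) x + deriv (vP N H Q g) x := (d1.hasDerivAt.add d2.hasDerivAt).deriv
      rw [h1, mul_add, (hP2 g).2 x hx hx1, (hQ2 g).2 x hx hx1]
  | mul_X P a hP =>
    obtain ⟨P', hP1, hP2⟩ := hP
    refine ⟨P' * MvPolynomial.X a + P * ww N T₀ A a, ?_, fun g => ?_⟩
    · have e0 : MvPolynomial.aeval (hfg H) (P * MvPolynomial.X a) =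
          MvPolynomial.aeval (hfg H) P * hfg H a := by rw [map_mul, MvPolynomial.aeval_X]
      have e1 : MvPolynomial.aeval (hfg H) (P' * MvPolynomial.X a + P * ww N T₀ A a) =
          MvPolynomial.aeval (hfg H) P' * hfg H a +
            MvPolynomial.aeval (hfg H) P * MvPolynomial.aeval (hfg H) (ww N T₀ A a) := by
        rw [map_add, map_mul, map_mul, MvPolynomial.aeval_X]
      rw [e0, e1, Derivation.leibniz, ← hP1, ← aeval_ww T₀ A hode a]
      simp only [smul_eq_mul]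
      ring
    · have e1 : vP N H (P * MvPolynomial.X a) g =
          fun x : ℝ => vP N H P g x * Zc N H g (x : ℂ) (ix n a).1 (ix n a).2 := by
        funext x
        unfold vP
        rw [MvPolynomial.eval₂_mul, MvPolynomial.eval₂_X]
        rfl
      have e2 : ∀ x : ℝ, vP N H (P' * MvPolynomial.X a + P * ww N T₀ A a) g x =
          vP N H P' g x * Zc N H g (x : ℂ) (ix n a).1 (ix n a).2 +
            vP N H P g x * vP N H (ww N T₀ A a) g x := by
        intro x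
        unfold vP
        rw [MvPolynomial.eval₂_add, MvPolynomial.eval₂_mul, MvPolynomial.eval₂_mul, MvPolynomial.eval₂_X]
        rfl
      rw [e1]
      refine ⟨fun x hx => ((hP2 g).1 x hx).mul (an_real (Z_an hL h hN g _ _ hx.1 hx.2)),
        fun x hx hx1 => ?_⟩
      have d1 := ((hP2 g).1 x ⟨hx, hx1⟩).differentiableAt
      have d2 := (an_real (Z_an hL h hN g (ix n a).1 (ix n a).2 hx hx1)).differentiableAt
      have h1 : deriv (fun x : ℝ => vP N H P g x * Zc N H g (x : ℂ) (ix n a).1 (ix n a).2) x =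
          deriv (vP N H P g) x * Zc N H g (x : ℂ) (ix n a).1 (ix n a).2 +
            vP N H P g x * deriv (fun x : ℝ => Zc N H g (x : ℂ) (ix n a).1 (ix n a).2) x :=
        (d1.hasDerivAt.mul d2.hasDerivAt).deriv
      have h2 := (hP2 g).2 x hx hx1
      have h3 := Z_der hL h hN hode g (ix n a).1 (ix n a).2 hx hx1
      rw [h1, e2, vP_ww, ← h2, ← h3, hev]
      ring

end Pool.Agent.Run7.h56.CP
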