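import Pool.Agent.Run7.h696.CP.Iface
import Pool.Agent.Run7.h468.CF.TUPL
import Pool.Agent.Run7.h824.HP.LT

/-! # Piece FINH of the project CP (helper696): the theorem on tuples for systems and hyperlogarithms -/

set_option autoImplicit false
set_option linter.unusedVariables false

open PowerSeries Matrix
open Pool.Agent.Y113 hiding Bm
open Pool.Agent.Y120.GF Pool.Agent.Y120.GH Pool.Agent.Y119.HZ
open Pool.Agent.Y119.HY (cm E Hf Yf Sol E_mul_neg Ep Ep_eval Vr)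
open Pool.Agent.Run7.h225.HG Pool.Agent.Run7.h225.HG.SYS2
open Pool.Agent.Run7.h696.CF Pool.Agent.Run7.h468.CF Pool.Agent.Run7.h696.CP

namespace Pool.Agent.Run7.h56.CP

/-- the hyperlogarithms are G-functions -/
theorem sdc_hy (hHLS : S_HLS) {m : ℕ} (a : Fin m → ℤ) {L : ℝ} (hL : 1 ≤ L) (ha : ∀ i, |(a i : ℝ)| ≤ L)
    (W : ℕ) (w : Wd m W) : SDc (hy a w.1) := by
  obtain ⟨d, N, H, V, hS, h⟩ := hHLS m a L hL ha W
  obtain ⟨p, q, hpq⟩ := h w
  rw [← hpq]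
  exact hS.sH p q

/-- the theorem on tuples for general systems and hyperlogarithms -/
theorem finh1 (hHLS : S_HLS) (hIND : S_INDH) (hONE : S_ONEH) (k δ D L W : ℕ) (hL : 1 ≤ L)
    (m : Fin k → ℕ) (a : ∀ i, Fin (m i) → ℤ) (ha : ∀ i j, |(a i j : ℝ)| ≤ L)
    (n : Fin k → ℕ) (N : ∀ i, Matrix (Fin (n i)) (Fin (n i)) ℚ)
    (H V' : ∀ i, Matrix (Fin (n i)) (Fin (n i)) ℚ⟦X⟧) (T : ∀ i, ℂ → Set (Matrix (Fin (n i)) (Fin (n i)) ℂ))
    (hS : ∀ i, SysL L (n i) (N i) (H i) (V' i)) (hNL : ∀ i, NoLogs (a i) (hfg (H i)))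
    (hT : ∀ i, ∀ x : ℝ, 0 < x → x < 1 / L → ∀ X ∈ T i x, ∀ c : ℂ, ∃ g ∈ GalL L (Yf (cm (N i)) (Hcg (H i))),
      Yf (cm (N i)) (Hcg (H i)) x * g = X * E (cm (N i)) c) :
    ∃ c C : ℝ, 0 < c ∧ 0 ≤ C ∧ ∀ (V : Submodule ℚ ℂ) [Module.Finite ℚ V], Module.finrank ℚ V ≤ D →
      ∀ Ω : (∀ i, Matrix (Fin (n i)) (Fin (n i)) ℂ), ∀ (x : Fin k → ℕ) (N' : ℕ), (∀ i, L ≤ x i) → 1 ≤ N' →
      ∀ S : Finset (Fin k → ℕ), (∀ t ∈ S, (∀ i, x i < t i ∧ t i ≤ x i + N') ∧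
        ∃ P : (∀ i, Wd (m i) W) → MvPolynomial (Jx n) ℂ, (∀ u, (P u).totalDegree ≤ δ) ∧
        (∀ u s, (P u).coeff s ∈ V) ∧
        ∑ u, MvPolynomial.aeval (pw (fun i => ((Real.log (t i) : ℝ) : ℂ)) fun i => Ytg (N i) (H i) (t i) * Ω i) (P u) *
          ∏ i, ((ev (t i : ℝ) (hy (a i) (u i).1) : ℝ) : ℂ) = 0 ∧
        ∃ (u : ∀ i, Wd (m i) W) (l : Fin k → ℂ) (g : ∀ i, Matrix (Fin (n i)) (Fin (n i)) ℂ),
          (∀ i, g i ∈ T i (((1 / (t i : ℝ) : ℝ)) : ℂ)) ∧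
          MvPolynomial.aeval (pw l fun i => g i * Ω i) (P u) ≠ 0) →
      (S.card : ℝ) ≤ C * (N' : ℝ) ^ (k - 1) * ∑ i, (1 + N' / ((x i : ℝ) + N') ^ c) := by
  classical
  have hL1 : (1 : ℝ) ≤ L := by exact_mod_cast hL
  obtain ⟨c, C, hc, hC, hmain⟩ := Pool.Agent.Run7.h824.HP.lt k (δ * dg n)
    ((Fintype.card (Option (Ix n))) ^ δ * D) (fun i => n i * n i)
    (fun i => hfg (H i)) (fun i => Wd (m i) W) (fun i w => hy (a i) w.1) (fun i => by
      obtain ⟨C₁, -, hs, -⟩ := Pool.Agent.Y119.HY.SDc.unif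
        (y := fun p : Fin (n i) × Fin (n i) => H i p.1 p.2) fun p => (hS i).sH p.1 p.2
      exact ⟨C₁, fun j m => hs (ix (n i) j) m⟩) (fun i => by
      obtain ⟨C₁, -, hs, -⟩ := Pool.Agent.Y119.HY.SDc.unif (y := fun w : Wd (m i) W => hy (a i) w.1)
        fun w => sdc_hy hHLS (a i) hL1 (ha i) W w
      exact ⟨C₁, hs⟩) (fun i => hONE hHLS hIND (m i) (a i) L hL1 (ha i) (n i) (N i) (H i) (V' i)
        (hS i) (hNL i) _ W)
  refine ⟨c, C, hc, hC, ?_⟩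
  intro V _ hV Ω x N' hx hN' S hSS
  obtain ⟨hfin, hrank⟩ := Vn_fin Ω V δ
  refine hmain (Vn Ω V δ) (hrank.trans (Nat.mul_le_mul_left _ hV)) x N' hN' S fun t htS => ?_
  obtain ⟨hbox, P, hPd, hPV, hP0, u, l, g, hg, hPg⟩ := hSS t htS
  refine ⟨hbox, fun u => MvPolynomial.aeval (subg' N Ω) (P u), fun u => (aeval_MVg' N Ω (hPd u) (hPV u)).2,
    fun u => (aeval_MVg' N Ω (hPd u) (hPV u)).1, ?_, u, ?_⟩
  · -- the value
    have h1 : valpt (fun i => hfg (H i)) t =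
        pt (fun i j => Hf (Hcg (H i)) (((1 / (t i : ℝ) : ℝ)) : ℂ) (ix (n i) j).1 (ix (n i) j).2)
          (fun i => ((Real.log (t i) : ℝ) : ℂ)) := by
      unfold valpt
      congr 1
      funext i j
      exact ev_H _ _ _
    have h2 : ∀ u, MvPolynomial.aeval (valpt (fun i => hfg (H i)) t) (MvPolynomial.aeval (subg' N Ω) (P u)) =
        MvPolynomial.aeval (fun v => MvPolynomial.aeval (valpt (fun i => hfg (H i)) t) (subg' N Ω v)) (P u) :=
      fun u => MvPolynomial.aeval_bind₁ _ _ _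
    simp only [h2]
    rw [h1]
    have h3 := fun v => aeval_subg' N Ω (fun i => Hf (Hcg (H i)) (((1 / (t i : ℝ) : ℝ)) : ℂ))
      (fun i => ((Real.log (t i) : ℝ) : ℂ)) v
    simp only [h3]
    exact hP0
  · intro hmem
    apply hPg
    have hL0 : (0 : ℝ) < L := by exact_mod_cast hL
    have ht2 : ∀ i, L < t i := fun i => by
      have := (hbox i).1
      have := hx i
      omega
    have hN : ∀ i, (cm (N i)) ^ n i = 0 := fun i => cm_nilG (hS i).nil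
    set Z : ∀ i, Matrix (Fin (n i)) (Fin (n i)) ℂ := fun i => g i * E (cm (N i)) (l i) with hZd
    have hZ : ∀ i, ∃ γ ∈ GalL L (Yf (cm (N i)) (Hcg (H i))),
        Yf (cm (N i)) (Hcg (H i)) (((1 / (t i : ℝ) : ℝ)) : ℂ) * γ *
          E (cm (N i)) (-Complex.log (((1 / (t i : ℝ) : ℝ)) : ℂ)) = Z i := by
      intro i
      have h3 : (L : ℝ) < t i := by exact_mod_cast ht2 i
      have h30 : (0 : ℝ) < t i := hL0.trans h3
      obtain ⟨γ, hγ, hγe⟩ := hT i (1 / (t i : ℝ)) (by positivity) (one_div_lt_one_div_of_lt hL0 h3)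
        (g i) (hg i) (l i + Complex.log (((1 / (t i : ℝ) : ℝ)) : ℂ))
      refine ⟨γ, hγ, ?_⟩
      rw [hγe, Matrix.mul_assoc, ← Pool.Agent.Y119.HY.E_add (hN i), hZd]
      congr 2
      ring
    have h1 := relI_vanish_G hL hS ht2 hZ l hmem
    have h2 : MvPolynomial.aeval (pt (fun i j => Z i (ix (n i) j).1 (ix (n i) j).2) l) (MvPolynomial.aeval (subg' N Ω) (P u)) =
        MvPolynomial.aeval (fun v => MvPolynomial.aeval (pt (fun i j => Z i
          (ix (n i) j).1 (ix (n i) j).2) l) (subg' N Ω v)) (P u) := MvPolynomial.aeval_bind₁ _ _ _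
    rw [h2] at h1
    have h3 := fun v => aeval_subg' N Ω Z l v
    simp only [h3] at h1
    have h4 : (fun i => Z i * E (cm (N i)) (-l i) * Ω i) = fun i => g i * Ω i := by
      funext i
      have e1 : E (cm (N i)) (l i) * E (cm (N i)) (-l i) = 1 := E_mul_neg (hN i) (l i)
      rw [hZd]
      simp only
      rw [Matrix.mul_assoc (g i), e1, mul_one]
    rw [h4] at h1
    exact h1

open JFINp in
/-- **FINH** -/
theorem p_FINH : S_FINH := by
  intro hHLS hIND hONE k δ D L W m a r n N H V' T hL ha hnil hS hNL hT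
  have hN : ∀ i j, cm (N i j) ^ n i j = 0 := fun i j => cm_nilG (hnil i j)
  have hY : ∀ (i : Fin k) (z : ℂ), Yf (cm (blk (n i) ℚ (N i))) (Hcg (blk (n i) ℚ⟦X⟧ (H i))) z =
      blk (n i) ℂ fun j => Yf (cm (N i j)) (Hcg (H i j)) z := by
    intro i z
    rw [BLK.cm_blk, BLK.Hcg_blk]
    exact BLK.Yf_blk (fun j => cm (N i j)) (hN i) (fun j => Hcg (H i j)) z
  have hE : ∀ (i : Fin k) (c : ℂ), E (cm (blk (n i) ℚ (N i))) c = blk (n i) ℂ fun j => E (cm (N i j)) c := by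
    intro i c
    rw [BLK.cm_blk]
    exact BLK.E_blk (fun j => cm (N i j)) (hN i) c
  have hYt : ∀ (i : Fin k) (t : ℕ), Ytg (blk (n i) ℚ (N i)) (blk (n i) ℚ⟦X⟧ (H i)) t =
      blk (n i) ℂ fun j => Ytg (N i j) (H i j) t := by
    intro i t
    unfold Ytg
    rw [hE, BLK.Hcg_blk, BLK.Hf_blk, ← map_mul]
    rfl
  obtain ⟨c, C, hc, hC, hmain⟩ := finh1 hHLS hIND hONE k δ D L W hL m a ha (fun i => ∑ j, n i j)
    (fun i => blk (n i) ℚ (N i))
    (fun i => blk (n i) ℚ⟦X⟧ (H i)) (fun i => blk (n i) ℚ⟦X⟧ (V' i))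
    (fun i z => (fun X => blk (n i) ℂ X) '' T i z) hS hNL (by
      rintro i x hx hx1 _ ⟨X, hX, rfl⟩ c
      obtain ⟨g, hg, hg'⟩ := hT i x hx hx1 X hX c
      refine ⟨blk (n i) ℂ g, hg, ?_⟩
      rw [hY, hE]
      show _ = blk (n i) ℂ X * _
      rw [← map_mul, ← map_mul]
      congr 1
      funext j
      exact hg' j)
  refine ⟨c, C, hc, hC, ?_⟩
  intro V _ hV Ω x N' hx hN' S hSt
  refine hmain V hV (fun i => blk (n i) ℂ (Ω i)) x N' hx hN' S ?_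
  intro t ht
  obtain ⟨ht1, P, hP1, hP2, hP3, u, l, g, hg, hne⟩ := hSt t ht
  refine ⟨ht1, fun u => MvPolynomial.rename rhoJ (P u),
    fun u => (MvPolynomial.totalDegree_rename_le _ _).trans (hP1 u),
    fun u => coeff_rhoJ V (P u) (hP2 u), ?_, u, l, fun i => blk (n i) ℂ (g i), fun i => ⟨g i, hg i, rfl⟩, ?_⟩
  · simp only [MvPolynomial.aeval_rename]
    have e1 : (fun i => Ytg (blk (n i) ℚ (N i)) (blk (n i) ℚ⟦X⟧ (H i)) (t i) * blk (n i) ℂ (Ω i)) =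
        fun i => blk (n i) ℂ fun j => Ytg (N i j) (H i j) (t i) * Ω i j := by
      funext i
      rw [hYt, ← map_mul]
      rfl
    rw [e1, pw_rhoJ]
    exact hP3
  · rw [MvPolynomial.aeval_rename]
    have e1 : (fun i => blk (n i) ℂ (g i) * blk (n i) ℂ (Ω i)) =
        fun i => blk (n i) ℂ fun j => g i j * Ω i j := by
      funext i
      rw [← map_mul]
      rfl
    rw [e1, pw_rhoJ]
    exact hne

end Pool.Agent.Run7.h56.CP
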