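import Pool.Agent.Run7.h696.CP.Iface

/-! # Piece TOR of the project CP (helper696): pure matrix algebra -/

set_option autoImplicit false
set_option linter.unusedVariables false
set_option linter.unusedSimpArgs false

open Matrix

namespace Pool.Agent.Run7.h56.CP

variable {n : ℕ}

theorem det_gam {w μ u ν : Fin n → ℂ} (hμw : μ ⬝ᵥ w = 0) (hμu : μ ⬝ᵥ u = 1) (hνw : ν ⬝ᵥ w = 1)
    (hνu : ν ⬝ᵥ u = 0) :
    (1 + vecMulVec w ν - (1 / 2 : ℂ) • vecMulVec u μ).det = 1 := by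
  have e : (1 : Matrix (Fin n) (Fin n) ℂ) + vecMulVec w ν - (1 / 2 : ℂ) • vecMulVec u μ =
      (1 + vecMulVec w ν) * (1 + vecMulVec (-(1 / 2 : ℂ) • u) μ) := by
    rw [Matrix.mul_add, Matrix.mul_one, Matrix.add_mul, Matrix.one_mul, vecMulVec_mul_vecMulVec,
      dotProduct_smul, hνu, smul_vecMulVec]
    simp
    abel
  rw [e, det_mul, vecMulVec_eq Unit w ν, vecMulVec_eq Unit (-(1 / 2 : ℂ) • u) μ,
    det_one_add_replicateCol_mul_replicateRow, det_one_add_replicateCol_mul_replicateRow, hνw,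
    dotProduct_smul, hμu]
  norm_num

theorem comm_gam {w μ u ν : Fin n → ℂ} (hμw : μ ⬝ᵥ w = 0) (hμu : μ ⬝ᵥ u = 1) (hνw : ν ⬝ᵥ w = 1)
    (s : ℂ) :
    (1 + vecMulVec w ν - (1 / 2 : ℂ) • vecMulVec u μ) * (1 + s • vecMulVec w μ) =
      (1 + (4 * s) • vecMulVec w μ) * (1 + vecMulVec w ν - (1 / 2 : ℂ) • vecMulVec u μ) := by
  have e1 : vecMulVec w ν * vecMulVec w μ = vecMulVec w μ := by
    rw [vecMulVec_mul_vecMulVec, hνw, one_smul]
  have e2 : vecMulVec u μ * vecMulVec w μ = 0 := by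
    rw [vecMulVec_mul_vecMulVec, hμw, zero_smul, vecMulVec_zero]
  have e3 : vecMulVec w μ * vecMulVec w ν = 0 := by
    rw [vecMulVec_mul_vecMulVec, hμw, zero_smul, vecMulVec_zero]
  have e4 : vecMulVec w μ * vecMulVec u μ = vecMulVec w μ := by
    rw [vecMulVec_mul_vecMulVec, hμu, one_smul]
  simp only [Matrix.mul_add, Matrix.add_mul, Matrix.sub_mul, Matrix.mul_sub, Matrix.mul_one,
    Matrix.one_mul, Matrix.mul_smul, Matrix.smul_mul, e1, e2, e3, e4, smul_zero]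
  module

theorem exists_one {μ : Fin n → ℂ} (h : μ ≠ 0) : ∃ u : Fin n → ℂ, μ ⬝ᵥ u = 1 := by
  obtain ⟨i, hi⟩ := Function.ne_iff.1 h
  refine ⟨Pi.single i (μ i)⁻¹, ?_⟩
  rw [dotProduct_single]
  exact mul_inv_cancel₀ hi

theorem tor1 (w μ : Fin n → ℂ) (hμw : μ ⬝ᵥ w = 0) : ∃ γ : Matrix (Fin n) (Fin n) ℂ, γ.det = 1 ∧
    ∀ s : ℂ, γ * (1 + s • vecMulVec w μ) = (1 + (4 * s) • vecMulVec w μ) * γ := by
  by_cases hw : w = 0
  · refine ⟨1, det_one, fun s => ?_⟩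
    simp [hw]
  by_cases hμ : μ = 0
  · refine ⟨1, det_one, fun s => ?_⟩
    simp [hμ]
  obtain ⟨u, hu⟩ := exists_one hμ
  obtain ⟨ν₀, hν₀⟩ := exists_one hw
  have h1 : (ν₀ - (ν₀ ⬝ᵥ u) • μ) ⬝ᵥ w = 1 := by
    rw [sub_dotProduct, smul_dotProduct, hμw, smul_zero, sub_zero, dotProduct_comm]
    exact hν₀
  have h2 : (ν₀ - (ν₀ ⬝ᵥ u) • μ) ⬝ᵥ u = 0 := by
    rw [sub_dotProduct, smul_dotProduct, hu]
    simp
  exact ⟨_, det_gam hμw hu h1 h2, comm_gam hμw hu h1⟩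

theorem tor2 (J : Matrix (Fin n) (Fin n) ℂ) (w : Fin n → ℂ) (hJ : J.transpose = -J)
    (hd : IsUnit J.det) :
    ∃ γ : Matrix (Fin n) (Fin n) ℂ, γ.det = 1 ∧ γ.transpose * J * γ = J ∧
    ∀ s : ℂ, γ * (1 + s • vecMulVec w (J *ᵥ w)) = (1 + (4 * s) • vecMulVec w (J *ᵥ w)) * γ := by
  by_cases hw : w = 0
  · refine ⟨1, det_one, by simp, fun s => ?_⟩
    simp [hw]
  have hb : J *ᵥ w ≠ 0 := by
    intro h
    apply hw
    have h1 : J⁻¹ *ᵥ (J *ᵥ w) = w := by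
      rw [mulVec_mulVec, nonsing_inv_mul _ hd, one_mulVec]
    rw [← h1, h, mulVec_zero]
  -- the form
  have hom : ∀ x y : Fin n → ℂ, (J *ᵥ x) ⬝ᵥ y = -((J *ᵥ y) ⬝ᵥ x) := by
    intro x y
    have h1 : (J *ᵥ x) ⬝ᵥ y = x ⬝ᵥ (Jᵀ *ᵥ y) := by
      rw [dotProduct_comm, dotProduct_mulVec, mulVec_transpose, dotProduct_comm]
    rw [h1, hJ, neg_mulVec, dotProduct_neg, dotProduct_comm]
  have hvm : ∀ x : Fin n → ℂ, x ᵥ* J = -(J *ᵥ x) := by
    intro x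
    rw [← mulVec_transpose, hJ, neg_mulVec]
  have hself : ∀ x : Fin n → ℂ, (J *ᵥ x) ⬝ᵥ x = 0 := by
    intro x
    have h1 := hom x x
    linear_combination (1 / 2 : ℂ) * h1
  obtain ⟨u, hu⟩ := exists_one hb
  have hbw := hself w
  have hau := hself u
  have haw : (J *ᵥ u) ⬝ᵥ w = -1 := by rw [hom u w, hu]
  have h1 : (-(J *ᵥ u)) ⬝ᵥ w = 1 := by rw [neg_dotProduct, haw, neg_neg]
  have h2 : (-(J *ᵥ u)) ⬝ᵥ u = 0 := by rw [neg_dotProduct, hau, neg_zero]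
  refine ⟨_, det_gam hbw hu h1 h2, ?_, comm_gam hbw hu h1⟩
  set a := J *ᵥ u with ha
  set b := J *ᵥ w with hbdef
  have e1 : J * (1 + vecMulVec w (-a) - (1 / 2 : ℂ) • vecMulVec u b) =
      J - vecMulVec b a - (1 / 2 : ℂ) • vecMulVec a b := by
    rw [Matrix.mul_sub, Matrix.mul_add, Matrix.mul_one, Matrix.mul_smul, mul_vecMulVec, mul_vecMulVec,
      vecMulVec_neg, ← ha, ← hbdef]
    abel
  have e2 : (1 + vecMulVec w (-a) - (1 / 2 : ℂ) • vecMulVec u b)ᵀ =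
      1 - vecMulVec a w - (1 / 2 : ℂ) • vecMulVec b u := by
    rw [transpose_sub, transpose_add, transpose_one, transpose_smul, transpose_vecMulVec,
      transpose_vecMulVec, neg_vecMulVec]
    abel
  have e3 : vecMulVec a w * J = -vecMulVec a b := by
    rw [vecMulVec_mul, hvm, vecMulVec_neg]
  have e4 : vecMulVec b u * J = -vecMulVec b a := by
    rw [vecMulVec_mul, hvm, vecMulVec_neg]
  have d1 : w ⬝ᵥ b = 0 := by rw [dotProduct_comm]; exact hbw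
  have d2 : w ⬝ᵥ a = -1 := by rw [dotProduct_comm]; exact haw
  have d3 : u ⬝ᵥ b = 1 := by rw [dotProduct_comm]; exact hu
  have d4 : u ⬝ᵥ a = 0 := by rw [dotProduct_comm]; exact hau
  have f1 : vecMulVec a w * vecMulVec b a = 0 := by
    rw [vecMulVec_mul_vecMulVec, d1, zero_smul, vecMulVec_zero]
  have f2 : vecMulVec a w * vecMulVec a b = -vecMulVec a b := by
    rw [vecMulVec_mul_vecMulVec, d2, neg_smul, one_smul, vecMulVec_neg]
  have f3 : vecMulVec b u * vecMulVec b a = vecMulVec b a := by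
    rw [vecMulVec_mul_vecMulVec, d3, one_smul]
  have f4 : vecMulVec b u * vecMulVec a b = 0 := by
    rw [vecMulVec_mul_vecMulVec, d4, zero_smul, vecMulVec_zero]
  rw [Matrix.mul_assoc, e1, e2]
  simp only [Matrix.mul_add, Matrix.add_mul, Matrix.sub_mul, Matrix.mul_sub, Matrix.mul_one,
    Matrix.one_mul, Matrix.mul_smul, Matrix.smul_mul, e3, e4, f1, f2, f3, f4, smul_zero]
  module

/-- **TOR** -/
theorem p_TOR : Pool.Agent.Run7.h696.CP.S_TOR :=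
  ⟨fun _ w μ h => tor1 w μ h, fun _ J w h1 h2 => tor2 J w h1 h2⟩

end Pool.Agent.Run7.h56.CP
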